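import Pool.Agent.H375R3.Dim.Pack

set_option autoImplicit false
open scoped Pointwise

namespace H375.Geo

open H112 H375.Pack

variable {G : Type*} [AddCommGroup G]

/-- shrinking a coset progression of small dimension to volume at most `|A|` -/
theorem geo_final [DecidableEq G] {A : Finset G} (hA : A.Nonempty) {V : ℝ} (hV : 1 ≤ V)
    {m : ℕ} (N : Seminorm ℝ (Fin m → ℝ)) (hN : ∀ x, N x = 0 → x = 0) (ψ : (Fin m → ℤ) →+ G)
    (H₀ : AddSubgroup G) (hfin : Finite H₀)
    (hsize : ((LL N 1).ncard : ℝ) * Nat.card H₀ ≤ V * A.card) {X : Finset G}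
    (hX : ∀ a ∈ A, ∃ x ∈ X, ∃ c ∈ LL N 2, ∃ h ∈ H₀, a = x + ψ c + h) :
    ∃ (d : ℕ) (B : Set (Fin d → ℝ)) (ψ' : (Fin d → ℤ) →+ G) (H' : AddSubgroup G) (T : Finset G),
      d ≤ max m 1 ∧ SymmBody B ∧ Finite H' ∧
      {c : Fin d → ℤ | (fun i => (c i : ℝ)) ∈ B}.ncard * Nat.card H' ≤ A.card ∧
      (T.card : ℝ) ≤ X.card * (6 * V * 5 ^ (4 * m)) ∧
      Covers B ψ' H' T A := by
  classical
  have hHpos : 0 < Nat.card H₀ := Nat.card_pos
  have hAc : 0 < A.card := hA.card_pos
  have hA0 : (0 : ℝ) < A.card := by exact_mod_cast hAc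
  have h5 : (1 : ℝ) ≤ 5 ^ m := one_le_pow₀ (by norm_num)
  have h54 : (5 : ℝ) ^ m ≤ 5 ^ (4 * m) := pow_le_pow_right₀ (by norm_num) (by omega)
  have hp2 : ((LL N 2).ncard : ℝ) ≤ 5 ^ m * (LL N 1).ncard := by
    have := pack N hN (r := 1) one_pos
    rw [mul_one] at this
    exact_mod_cast this
  by_cases hcase : A.card < Nat.card H₀
  · obtain ⟨l, g, H₁, T', hfin1, hle, hvol, hT', hcov⟩ := big_subgroup H₀ hfin hAc hcase
    let ψ' : (Fin 1 → ℤ) →+ G :=
      { toFun := fun c => c 0 • g
        map_zero' := by simp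
        map_add' := fun a b => by simp [add_smul] }
    let N1 : Seminorm ℝ (Fin 1 → ℝ) := normSeminorm ℝ (Fin 1 → ℝ)
    have hN1 : ∀ x : Fin 1 → ℝ, N1 x = |x 0| := by
      intro x
      show ‖x‖ = |x 0|
      rw [← Real.norm_eq_abs]
      apply le_antisymm
      · rw [pi_norm_le_iff_of_nonneg (norm_nonneg _)]
        intro i
        rw [Subsingleton.elim i 0]
      · exact norm_le_pi_norm x 0
    obtain ⟨LF, hLF⟩ : ∃ LF, LF = (LL_finite N hN 2).toFinset := ⟨_, rfl⟩
    obtain ⟨T, hT⟩ : ∃ T : Finset G, T = (X ×ˢ (LF ×ˢ T')).image (fun p => p.1 + ψ p.2.1 + p.2.2) :=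
      ⟨_, rfl⟩
    refine ⟨1, {x | N1 x ≤ (l : ℝ) + 1 / 2}, ψ', H₁, T, le_max_right _ _, ?_, hfin1, ?_, ?_, ?_⟩
    · apply symmBody_ball N1
      · intro x hx
        exact norm_eq_zero.1 hx
      · positivity
    · have e : {c : Fin 1 → ℤ | (fun i => (c i : ℝ)) ∈ {x : Fin 1 → ℝ | N1 x ≤ (l : ℝ) + 1 / 2}} =
          (fun z : ℤ => (fun _ : Fin 1 => z)) '' (Finset.Icc (-(l : ℤ)) l : Set ℤ) := by
        ext c
        simp only [Set.mem_ofPred_eq, hN1, Set.mem_image, Finset.coe_Icc, Set.mem_Icc]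
        constructor
        · intro h
          refine ⟨c 0, ?_, ?_⟩
          · have h' : |c 0| < (l : ℤ) + 1 := by
              have : ((|c 0| : ℤ) : ℝ) < ((l : ℤ) + 1 : ℤ) := by
                push_cast
                linarith
              exact_mod_cast this
            rw [abs_lt] at h'
            constructor <;> omega
          · ext i
            rw [Subsingleton.elim i 0]
        · rintro ⟨z, hz, rfl⟩
          have : ((|z| : ℤ) : ℝ) ≤ ((l : ℤ) : ℝ) := by
            exact_mod_cast abs_le.2 hz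
          push_cast at this
          linarith
      have hcount : {c : Fin 1 → ℤ | (fun i => (c i : ℝ)) ∈
          {x : Fin 1 → ℝ | N1 x ≤ (l : ℝ) + 1 / 2}}.ncard = 2 * l + 1 := by
        rw [e, Set.ncard_image_of_injective]
        · rw [Set.ncard_coe_finset, Int.card_Icc]
          omega
        · intro a b hab
          exact congrFun hab 0
      rw [hcount]
      exact hvol
    · have hTc : T.card ≤ X.card * ((LL N 2).ncard * T'.card) := by
        rw [hT]
        refine Finset.card_image_le.trans ?_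
        rw [Finset.card_product, Finset.card_product, hLF, Set.ncard_eq_toFinset_card _ (LL_finite N hN 2)]
      have h6 : ((LL N 2).ncard : ℝ) * T'.card ≤ 6 * V * 5 ^ (4 * m) := by
        have h7 : ((LL N 2).ncard : ℝ) * T'.card * A.card ≤ 6 * V * 5 ^ (4 * m) * A.card := by
          calc ((LL N 2).ncard : ℝ) * T'.card * A.card
              = ((LL N 2).ncard : ℝ) * (T'.card * A.card) := by ring
            _ ≤ (5 ^ m * (LL N 1).ncard) * (6 * Nat.card H₀) := by gcongr
            _ = 5 ^ m * (6 * (((LL N 1).ncard : ℝ) * Nat.card H₀)) := by ring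
            _ ≤ 5 ^ m * (6 * (V * A.card)) := by gcongr
            _ ≤ 5 ^ (4 * m) * (6 * (V * A.card)) := by gcongr
            _ = _ := by ring
        exact le_of_mul_le_mul_right h7 hA0
      calc (T.card : ℝ) ≤ X.card * (((LL N 2).ncard : ℝ) * T'.card) := by exact_mod_cast hTc
        _ ≤ X.card * (6 * V * 5 ^ (4 * m)) := mul_le_mul_of_nonneg_left h6 (by positivity)
    · intro a ha
      obtain ⟨x, hx, c, hc, h, hh, rfl⟩ := hX a ha
      obtain ⟨t, ht, z, hz, h', hh', heq⟩ := hcov _ hh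
      refine ⟨x + ψ c + t, ?_, fun _ => z, ?_, h', hh', ?_⟩
      · rw [hT, Finset.mem_image]
        refine ⟨(x, c, t), ?_, rfl⟩
        rw [Finset.mem_product, Finset.mem_product, hLF, Set.Finite.mem_toFinset]
        exact ⟨hx, hc, ht⟩
      · simp only [Set.mem_ofPred_eq, hN1]
        have : ((|z| : ℤ) : ℝ) ≤ ((l : ℤ) : ℝ) := by exact_mod_cast hz
        push_cast at this
        linarith
      · show x + ψ c + h = x + ψ c + t + z • g + h'
        rw [heq]
        abel
  · push Not at hcase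
    have hexj : ∃ j : ℕ, (LL N (2 / 2 ^ j)).ncard * Nat.card H₀ ≤ A.card := by
      obtain ⟨j, hj⟩ := small_scale N hN
      refine ⟨j, ?_⟩
      calc (LL N (2 / 2 ^ j)).ncard * Nat.card H₀ ≤ 1 * Nat.card H₀ := Nat.mul_le_mul_right _ hj
        _ ≤ A.card := by omega
    obtain ⟨j, hj, hjmin⟩ : ∃ j : ℕ, (LL N (2 / 2 ^ j)).ncard * Nat.card H₀ ≤ A.card ∧
        ∀ k < j, A.card < (LL N (2 / 2 ^ k)).ncard * Nat.card H₀ := by
      refine ⟨Nat.find hexj, Nat.find_spec hexj, fun k hk => ?_⟩
      have := Nat.find_min hexj hk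
      omega
    have hrpos : (0 : ℝ) < 2 / 2 ^ j := by positivity
    obtain ⟨Y, hYc, hYcov⟩ : ∃ Y : Finset (Fin m → ℤ), (Y.card : ℝ) ≤ V * 5 ^ (4 * m) ∧
        ∀ c ∈ LL N 2, ∃ y ∈ Y, c - y ∈ LL N (2 / 2 ^ j) := by
      rcases Nat.eq_zero_or_pos j with hj0 | hjpos
      · refine ⟨{0}, ?_, fun c hc => ⟨0, by simp, ?_⟩⟩
        · rw [Finset.card_singleton]
          have : (1 : ℝ) ≤ 5 ^ (4 * m) := one_le_pow₀ (by norm_num)
          push_cast
          nlinarith
        · rw [sub_zero, hj0, pow_zero, div_one]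
          exact hc
      · obtain ⟨r, hr⟩ : ∃ r : ℝ, r = 2 / 2 ^ j := ⟨_, rfl⟩
        have hr0 : 0 < r := by rw [hr]; exact hrpos
        have hr1 : r ≤ 1 := by
          rw [hr]
          have : (2 : ℝ) ≤ 2 ^ j := by
            calc (2 : ℝ) = 2 ^ 1 := by norm_num
              _ ≤ 2 ^ j := pow_le_pow_right₀ (by norm_num) hjpos
          rw [div_le_one (by positivity)]
          exact this
        have h2r : (2 : ℝ) / 2 ^ (j - 1) = 2 * r := by
          rw [hr]
          obtain ⟨k, hk⟩ : ∃ k, j = k + 1 := ⟨j - 1, by omega⟩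
          rw [hk, Nat.add_sub_cancel, pow_succ]
          field_simp
        have hbig := hjmin (j - 1) (by omega)
        rw [h2r] at hbig
        rw [← hr]
        obtain ⟨Y, hY1, hY2⟩ := cover_ball N hN hr0 2
        refine ⟨Y, ?_, hY2⟩
        have hd1 := pack N hN (r := r) hr0
        have hd2 := pack N hN (r := r / 2) (by linarith)
        rw [show 2 * (r / 2) = r by ring] at hd2
        have hd3 := pack N hN (r := 2) (by norm_num)
        have hd4 : (LL N (2 + r / 2)).ncard ≤ (LL N (2 * 2)).ncard :=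
          Set.ncard_le_ncard (LL_mono N (by linarith)) (LL_finite N hN _)
        have hup : ((LL N (2 + r / 2)).ncard : ℝ) * Nat.card H₀ ≤ 5 ^ (2 * m) * (V * A.card) := by
          have e3 : ((LL N (2 * 2)).ncard : ℝ) ≤ 5 ^ m * (LL N 2).ncard := by exact_mod_cast hd3
          have e4 : ((LL N (2 + r / 2)).ncard : ℝ) ≤ (LL N (2 * 2)).ncard := by exact_mod_cast hd4
          calc ((LL N (2 + r / 2)).ncard : ℝ) * Nat.card H₀
              ≤ (5 ^ m * (5 ^ m * (LL N 1).ncard)) * Nat.card H₀ := by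
                gcongr
                exact e4.trans (e3.trans (by gcongr))
            _ = 5 ^ (2 * m) * (((LL N 1).ncard : ℝ) * Nat.card H₀) := by
                rw [two_mul, pow_add]; ring
            _ ≤ 5 ^ (2 * m) * (V * A.card) := by gcongr
        have hlow : (A.card : ℝ) ≤ 5 ^ (2 * m) * (((LL N (r / 2)).ncard : ℝ) * Nat.card H₀) := by
          have e1 : ((LL N (2 * r)).ncard : ℝ) ≤ 5 ^ m * (LL N r).ncard := by exact_mod_cast hd1
          have e2 : ((LL N r).ncard : ℝ) ≤ 5 ^ m * (LL N (r / 2)).ncard := by exact_mod_cast hd2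
          have e5 : (A.card : ℝ) ≤ ((LL N (2 * r)).ncard : ℝ) * Nat.card H₀ := by
            exact_mod_cast hbig.le
          calc (A.card : ℝ) ≤ ((LL N (2 * r)).ncard : ℝ) * Nat.card H₀ := e5
            _ ≤ (5 ^ m * (5 ^ m * (LL N (r / 2)).ncard)) * Nat.card H₀ := by
                gcongr
                exact e1.trans (by gcongr)
            _ = _ := by rw [two_mul, pow_add]; ring
        have hY1' : (Y.card : ℝ) * (LL N (r / 2)).ncard ≤ (LL N (2 + r / 2)).ncard := by
          exact_mod_cast hY1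
        have hfinal : (Y.card : ℝ) * A.card ≤ V * 5 ^ (4 * m) * A.card := by
          calc (Y.card : ℝ) * A.card
              ≤ Y.card * (5 ^ (2 * m) * (((LL N (r / 2)).ncard : ℝ) * Nat.card H₀)) := by gcongr
            _ = 5 ^ (2 * m) * (((Y.card : ℝ) * (LL N (r / 2)).ncard) * Nat.card H₀) := by ring
            _ ≤ 5 ^ (2 * m) * (((LL N (2 + r / 2)).ncard : ℝ) * Nat.card H₀) := by gcongr
            _ ≤ 5 ^ (2 * m) * (5 ^ (2 * m) * (V * A.card)) := by gcongr
            _ = V * 5 ^ (4 * m) * A.card := by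
                rw [show 4 * m = 2 * m + 2 * m by ring, pow_add]; ring
        exact le_of_mul_le_mul_right hfinal hA0
    refine ⟨m, {x | N x ≤ 2 / 2 ^ j}, ψ, H₀, X + Y.image ψ, le_max_left _ _,
      symmBody_ball N hN hrpos, hfin, hj, ?_, ?_⟩
    · calc ((X + Y.image ψ).card : ℝ) ≤ X.card * (Y.image ψ).card := by
            exact_mod_cast Finset.card_add_le
        _ ≤ X.card * Y.card := by
            gcongr
            exact Finset.card_image_le
        _ ≤ X.card * (V * 5 ^ (4 * m)) := mul_le_mul_of_nonneg_left hYc (by positivity)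
        _ ≤ X.card * (6 * V * 5 ^ (4 * m)) := by
            apply mul_le_mul_of_nonneg_left _ (by positivity)
            have : 0 ≤ V * 5 ^ (4 * m) := by positivity
            nlinarith
    · intro a ha
      obtain ⟨x, hx, c, hc, h, hh, rfl⟩ := hX a ha
      obtain ⟨y, hy, hcy⟩ := hYcov c hc
      refine ⟨x + ψ y, Finset.add_mem_add hx (Finset.mem_image_of_mem _ hy), c - y, hcy, h, hh, ?_⟩
      rw [map_sub]
      abel

end H375.Geo
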