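import Pool.Agent.H112R2.Cover
import Mathlib

set_option autoImplicit false
open scoped Pointwise

namespace H375.Pack

open H112

theorem body_bounded {m : ℕ} (N : Seminorm ℝ (Fin m → ℝ)) (hN : ∀ x, N x = 0 → x = 0) (r : ℝ) :
    ∃ R : ℝ, ∀ x, N x ≤ r → ∀ i, |x i| ≤ R := by
  have h1 : SymmBody {x | N x ≤ max r 1} := symmBody_ball N hN (by positivity)
  obtain ⟨R, hR⟩ := h1.2.1.isBounded.exists_norm_le
  refine ⟨R, fun x hx i => ?_⟩
  have h2 := hR x (show N x ≤ max r 1 from hx.trans (le_max_left _ _))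
  have h3 := norm_le_pi_norm x i
  rw [Real.norm_eq_abs] at h3
  exact h3.trans h2

theorem LL_finite {m : ℕ} (N : Seminorm ℝ (Fin m → ℝ)) (hN : ∀ x, N x = 0 → x = 0) (r : ℝ) :
    (LL N r).Finite := by
  obtain ⟨R, hR⟩ := body_bounded N hN r
  apply (Set.finite_Icc (fun _ : Fin m => -⌈R⌉) (fun _ : Fin m => ⌈R⌉)).subset
  intro c hc
  have h := hR _ hc
  constructor
  · intro i
    have h1 := (abs_le.1 (h i)).1
    have h2 : (-⌈R⌉ : ℝ) ≤ c i := by
      have := Int.le_ceil R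
      linarith
    exact_mod_cast h2
  · intro i
    have h1 := (abs_le.1 (h i)).2
    have h2 : (c i : ℝ) ≤ ⌈R⌉ := h1.trans (Int.le_ceil R)
    exact_mod_cast h2

theorem sep_gen {E : Type*} [AddCommGroup E] [Module ℝ E] [FiniteDimensional ℝ E]
    (N : Seminorm ℝ E) (hN : ∀ x, N x = 0 → x = 0)
    (s : Finset E) (hs : ∀ c ∈ s, N c ≤ 2)
    (h : ∀ c ∈ s, ∀ d ∈ s, c ≠ d → 1 ≤ N (c - d)) : s.card ≤ 5 ^ (Module.finrank ℝ E) := by
  let g : AddGroupNorm E :=
    { toFun := N, map_zero' := map_zero N, add_le' := map_add_le_add N,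
      neg' := map_neg_eq_map N, eq_zero_of_map_eq_zero' := hN }
  let i1 : NormedAddCommGroup E := g.toNormedAddCommGroup
  let i2 : NormedSpace ℝ E :=
    { norm_smul_le := fun a b => (map_smul_eq_mul N a b).le }
  exact Besicovitch.card_le_of_separated s hs h

theorem separated_card {m : ℕ} (N : Seminorm ℝ (Fin m → ℝ)) (hN : ∀ x, N x = 0 → x = 0)
    (s : Finset (Fin m → ℝ)) (hs : ∀ c ∈ s, N c ≤ 2)
    (h : ∀ c ∈ s, ∀ d ∈ s, c ≠ d → 1 ≤ N (c - d)) : s.card ≤ 5 ^ m := by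
  have h1 := sep_gen N hN s hs h
  rwa [Module.finrank_fin_fun] at h1

theorem exists_net {α : Type*} [DecidableEq α] (F : Finset α) (R : α → α → Prop)
    (hsymm : ∀ x y, R x y → R y x) (hrefl : ∀ x, R x x) :
    ∃ X ⊆ F, (∀ x ∈ X, ∀ y ∈ X, x ≠ y → ¬ R x y) ∧ ∀ y ∈ F, ∃ x ∈ X, R x y := by
  classical
  induction F using Finset.induction_on with
  | empty => exact ⟨∅, by simp, by simp, by simp⟩
  | insert a F ha ih =>
    obtain ⟨X, hXF, hsep, hcov⟩ := ih
    by_cases h : ∃ x ∈ X, R x a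
    · refine ⟨X, hXF.trans (Finset.subset_insert _ _), hsep, ?_⟩
      intro y hy
      rcases Finset.mem_insert.1 hy with rfl | hy
      · exact h
      · exact hcov y hy
    · push Not at h
      refine ⟨insert a X, Finset.insert_subset_insert _ hXF, ?_, ?_⟩
      · intro x hx y hy hxy
        rcases Finset.mem_insert.1 hx with hx1 | hx1 <;>
          rcases Finset.mem_insert.1 hy with hy1 | hy1
        · exact absurd (hx1.trans hy1.symm) hxy
        · rw [hx1]; exact fun h' => h y hy1 (hsymm _ _ h')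
        · rw [hy1]; exact h x hx1
        · exact hsep x hx1 y hy1 hxy
      · intro y hy
        rcases Finset.mem_insert.1 hy with rfl | hy
        · exact ⟨y, Finset.mem_insert_self _ _, hrefl y⟩
        · obtain ⟨x, hx, hxy⟩ := hcov y hy
          exact ⟨x, Finset.mem_insert_of_mem hx, hxy⟩

theorem cast_sub {m : ℕ} (c d : Fin m → ℤ) :
    (fun i => (((c - d) i : ℤ) : ℝ)) = (fun i => (c i : ℝ)) - (fun i => (d i : ℝ)) := by
  funext i; simp

theorem cast_add {m : ℕ} (c d : Fin m → ℤ) :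
    (fun i => (((c + d) i : ℤ) : ℝ)) = (fun i => (c i : ℝ)) + (fun i => (d i : ℝ)) := by
  funext i; simp

theorem LL_sub {m : ℕ} (N : Seminorm ℝ (Fin m → ℝ)) {c d : Fin m → ℤ} {r s : ℝ}
    (hc : c ∈ LL N r) (hd : d ∈ LL N s) : c - d ∈ LL N (r + s) := by
  show N _ ≤ _
  rw [cast_sub]
  exact (map_sub_le_add N _ _).trans (add_le_add hc hd)

theorem LL_add' {m : ℕ} (N : Seminorm ℝ (Fin m → ℝ)) {c d : Fin m → ℤ} {r s : ℝ}
    (hc : c ∈ LL N r) (hd : d ∈ LL N s) : c + d ∈ LL N (r + s) := by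
  show N _ ≤ _
  rw [cast_add]
  exact (map_add_le_add N _ _).trans (add_le_add hc hd)

theorem LL_mono {m : ℕ} (N : Seminorm ℝ (Fin m → ℝ)) {r s : ℝ} (h : r ≤ s) :
    LL N r ⊆ LL N s := fun _ hc => le_trans hc h

theorem net {m : ℕ} (N : Seminorm ℝ (Fin m → ℝ)) (hN : ∀ x, N x = 0 → x = 0) (R r : ℝ)
    (hr : 0 ≤ r) :
    ∃ X : Finset (Fin m → ℤ), (∀ x ∈ X, x ∈ LL N R) ∧
      (∀ x ∈ X, ∀ y ∈ X, x ≠ y → r < N (fun i => (((x - y) i : ℤ) : ℝ))) ∧
      ∀ y ∈ LL N R, ∃ x ∈ X, y - x ∈ LL N r := by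
  classical
  obtain ⟨X, hX1, hX2, hX3⟩ := exists_net (LL_finite N hN R).toFinset
    (fun x y => N (fun i => (((x - y) i : ℤ) : ℝ)) ≤ r) (by
      intro x y h
      rw [cast_sub] at h ⊢
      rwa [← map_neg_eq_map N, neg_sub]) (by
      intro x
      rw [cast_sub, sub_self, map_zero]
      exact hr)
  refine ⟨X, fun x hx => (Set.Finite.mem_toFinset _).1 (hX1 hx), fun x hx y hy hxy =>
    not_le.1 (hX2 x hx y hy hxy), fun y hy => ?_⟩
  obtain ⟨x, hx, hxy⟩ := hX3 y ((Set.Finite.mem_toFinset _).2 hy)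
  refine ⟨x, hx, ?_⟩
  show N _ ≤ r
  rw [cast_sub] at hxy ⊢
  rwa [← map_neg_eq_map N, neg_sub]

/-- doubling of lattice points with constant `5^m` -/
theorem pack {m : ℕ} (N : Seminorm ℝ (Fin m → ℝ)) (hN : ∀ x, N x = 0 → x = 0) {r : ℝ}
    (hr : 0 < r) : (LL N (2 * r)).ncard ≤ 5 ^ m * (LL N r).ncard := by
  classical
  obtain ⟨X, hX1, hX2, hX3⟩ := net N hN (2 * r) r hr.le
  have hXc : X.card ≤ 5 ^ m := by
    have hinj : Function.Injective (fun c : Fin m → ℤ => (fun i => r⁻¹ * (c i : ℝ) : Fin m → ℝ)) := by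
      intro a b h
      funext i
      have := congrFun h i
      simp only at this
      have h2 := mul_left_cancel₀ (inv_ne_zero hr.ne') this
      exact_mod_cast h2
    have hsm : ∀ c : Fin m → ℤ, (fun i => r⁻¹ * (c i : ℝ) : Fin m → ℝ) =
        r⁻¹ • (fun i => (c i : ℝ)) := by
      intro c; funext i; simp
    have h1 := separated_card N hN (X.image (fun c : Fin m → ℤ => (fun i => r⁻¹ * (c i : ℝ))))
      (by
        intro c hc
        obtain ⟨x, hx, rfl⟩ := Finset.mem_image.1 hc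
        rw [hsm, map_smul_eq_mul, norm_inv, Real.norm_of_nonneg hr.le]
        have : N (fun i => (x i : ℝ)) ≤ 2 * r := hX1 x hx
        rw [inv_mul_le_iff₀ hr]
        linarith)
      (by
        intro c hc d hd hcd
        obtain ⟨x, hx, rfl⟩ := Finset.mem_image.1 hc
        obtain ⟨y, hy, rfl⟩ := Finset.mem_image.1 hd
        have hxy : x ≠ y := fun h => hcd (by rw [h])
        rw [hsm, hsm, ← smul_sub, map_smul_eq_mul, norm_inv, Real.norm_of_nonneg hr.le,
          ← cast_sub]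
        have := hX2 x hx y hy hxy
        rw [le_inv_mul_iff₀ hr]
        linarith)
    rwa [Finset.card_image_of_injective _ hinj] at h1
  have hsub : (LL N (2 * r)) ⊆ ⋃ x ∈ X, (fun c => x + c) '' (LL N r) := by
    intro y hy
    obtain ⟨x, hx, hyx⟩ := hX3 y hy
    rw [Set.mem_iUnion₂]
    exact ⟨x, hx, y - x, hyx, by simp⟩
  have hfin : (LL N r).Finite := LL_finite N hN r
  calc (LL N (2 * r)).ncard ≤ (⋃ x ∈ X, (fun c => x + c) '' (LL N r)).ncard := by
        exact Set.ncard_le_ncard hsub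
          (Set.Finite.biUnion X.finite_toSet (fun x _ => hfin.image _))
    _ ≤ ∑ x ∈ X, ((fun c => x + c) '' (LL N r)).ncard := by
        have := Finset.set_ncard_biUnion_le X (fun x => (fun c => x + c) '' (LL N r))
        exact this
    _ ≤ ∑ x ∈ X, (LL N r).ncard := Finset.sum_le_sum fun x _ => Set.ncard_image_le hfin
    _ = X.card * (LL N r).ncard := by rw [Finset.sum_const, smul_eq_mul]
    _ ≤ 5 ^ m * (LL N r).ncard := Nat.mul_le_mul_right _ hXc

/-- covering a ball by translates of a smaller one -/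
theorem cover_ball {m : ℕ} (N : Seminorm ℝ (Fin m → ℝ)) (hN : ∀ x, N x = 0 → x = 0) {r : ℝ}
    (hr : 0 < r) (R : ℝ) :
    ∃ X : Finset (Fin m → ℤ), X.card * (LL N (r / 2)).ncard ≤ (LL N (R + r / 2)).ncard ∧
      ∀ y ∈ LL N R, ∃ x ∈ X, y - x ∈ LL N r := by
  classical
  obtain ⟨X, hX1, hX2, hX3⟩ := net N hN R r hr.le
  refine ⟨X, ?_, hX3⟩
  have hfin := LL_finite N hN (r / 2)
  have hfin2 := LL_finite N hN (R + r / 2)
  rw [Set.ncard_eq_toFinset_card _ hfin, Set.ncard_eq_toFinset_card _ hfin2, ← Finset.card_product]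
  apply Finset.card_le_card_of_injOn (fun p => p.1 + p.2)
  · rintro ⟨x, c⟩ hp
    rw [Finset.mem_coe, Finset.mem_product, Set.Finite.mem_toFinset] at hp
    rw [Finset.mem_coe, Set.Finite.mem_toFinset]
    exact LL_add' N (hX1 x hp.1) hp.2
  · rintro ⟨x, c⟩ hp ⟨y, d⟩ hq h
    rw [Finset.mem_coe, Finset.mem_product, Set.Finite.mem_toFinset] at hp hq
    have h' : x + c = y + d := h
    have hxy : x = y := by
      by_contra hne
      have h1 := hX2 x hp.1 y hq.1 hne
      have h2 : x - y = d - c := by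
        have : x - y = (x + c) - y - c := by abel
        rw [this, h']; abel
      have h3 := LL_sub N hq.2 hp.2
      rw [← h2] at h3
      have h4 : N (fun i => (((x - y) i : ℤ) : ℝ)) ≤ r / 2 + r / 2 := h3
      linarith
    subst hxy
    rw [Prod.mk.injEq]
    exact ⟨rfl, add_left_cancel h'⟩

theorem LL_zero_mem {m : ℕ} (N : Seminorm ℝ (Fin m → ℝ)) {r : ℝ} (hr : 0 ≤ r) :
    (0 : Fin m → ℤ) ∈ LL N r := by
  show N _ ≤ r
  have : (fun i => (((0 : Fin m → ℤ) i : ℤ) : ℝ)) = (0 : Fin m → ℝ) := by funext i; simp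
  rw [this, map_zero]; exact hr

theorem LL_ncard_pos {m : ℕ} (N : Seminorm ℝ (Fin m → ℝ)) (hN : ∀ x, N x = 0 → x = 0) {r : ℝ}
    (hr : 0 ≤ r) : 0 < (LL N r).ncard :=
  (Set.ncard_pos (LL_finite N hN r)).2 ⟨0, LL_zero_mem N hr⟩

theorem small_scale {m : ℕ} (N : Seminorm ℝ (Fin m → ℝ)) (hN : ∀ x, N x = 0 → x = 0) :
    ∃ j : ℕ, (LL N (2 / 2 ^ j)).ncard ≤ 1 := by
  classical
  obtain ⟨ε, hε, hmin⟩ : ∃ ε : ℝ, 0 < ε ∧ ∀ c ∈ LL N 2, c ≠ 0 → ε ≤ N (fun i => (c i : ℝ)) := by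
    set F := ((LL_finite N hN 2).toFinset.erase 0).image (fun c => N (fun i => (c i : ℝ))) with hF
    rcases F.eq_empty_or_nonempty with hemp | hne
    · refine ⟨1, one_pos, fun c hc hc0 => ?_⟩
      exfalso
      have : N (fun i => (c i : ℝ)) ∈ F := by
        rw [hF, Finset.mem_image]
        exact ⟨c, by simp [hc0, hc], rfl⟩
      rw [hemp] at this
      simp at this
    · refine ⟨F.min' hne, ?_, fun c hc hc0 => ?_⟩
      · obtain ⟨c, hc, hceq⟩ := Finset.mem_image.1 (F.min'_mem hne)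
        rw [Finset.mem_erase] at hc
        rw [← hceq]
        refine lt_of_le_of_ne (apply_nonneg N _) (fun h => hc.1 ?_)
        have h5 := hN _ h.symm
        funext i
        have h6 := congrFun h5 i
        simp only [Pi.zero_apply] at h6 ⊢
        exact_mod_cast h6
      · apply Finset.min'_le
        rw [hF, Finset.mem_image]
        exact ⟨c, by simp [hc0, hc], rfl⟩
  obtain ⟨j, hj⟩ := exists_pow_lt_of_lt_one (by positivity : 0 < ε / 2)
    (by norm_num : (1/2 : ℝ) < 1)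
  refine ⟨j, ?_⟩
  have hsub : LL N (2 / 2 ^ j) ⊆ {0} := by
    intro c hc
    by_contra hc0
    rw [Set.mem_singleton_iff] at hc0
    have hc' : N (fun i => (c i : ℝ)) ≤ 2 / 2 ^ j := hc
    have hle : (2 : ℝ) / 2 ^ j ≤ 2 := div_le_self (by norm_num) (one_le_pow₀ (by norm_num))
    have h3 := hmin c (hc'.trans hle) hc0
    have h4 : (2 : ℝ) / 2 ^ j < ε := by
      have : (2 : ℝ) / 2 ^ j = 2 * (1 / 2) ^ j := by rw [one_div, inv_pow]; ring
      rw [this]; linarith
    linarith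
  have := Set.ncard_le_ncard hsub (Set.finite_singleton _)
  simpa using this

end H375.Pack
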