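import Pool.Agent.H375R3.Dim.Pack

set_option autoImplicit false
open scoped Pointwise

namespace H375.Rank

open H112

theorem rank_step {d : ℕ} (N : Seminorm ℝ (Fin d → ℝ)) (hN : ∀ x, N x = 0 → x = 0)
    (S : Finset (Fin d → ℤ)) :
    ∃ (m : ℕ) (e : (Fin m → ℤ) →+ (Fin d → ℤ)) (N' : Seminorm ℝ (Fin m → ℝ)), m ≤ S.card ∧
      Function.Injective e ∧ (∀ x, N' x = 0 → x = 0) ∧
      (∀ c : Fin m → ℤ, N' (fun i => (c i : ℝ)) = N (fun j => ((e c j : ℤ) : ℝ))) ∧
      ∀ y ∈ AddSubgroup.closure (S : Set (Fin d → ℤ)), ∃ c, e c = y := by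
  classical
  obtain ⟨V, hV⟩ : ∃ V : Submodule ℤ (Fin d → ℤ), V = Submodule.span ℤ (S : Set (Fin d → ℤ)) :=
    ⟨_, rfl⟩
  obtain ⟨m, b⟩ := Submodule.basisOfPid (Pi.basisFun ℤ (Fin d)) V
  have hm : m ≤ S.card := by
    have h1 : Module.finrank ℤ V = m := by
      rw [Module.finrank_eq_card_basis b, Fintype.card_fin]
    have h2 : Module.finrank ℤ V ≤ S.card := by
      rw [hV]
      exact finrank_span_finset_le_card S
    omega
  have hli : LinearIndependent ℤ (fun i => (b i : Fin d → ℤ)) := by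
    have h1 := b.linearIndependent
    exact h1.map' V.subtype (Submodule.ker_subtype V)
  have hliR : LinearIndependent ℝ (fun i => (fun j => ((b i : Fin d → ℤ) j : ℝ) : Fin d → ℝ)) := by
    have := (linearIndependent_algebraMap_comp_iff (R := ℤ) (S := ℝ)
      (v := fun i => (b i : Fin d → ℤ))).2 hli
    exact this
  obtain ⟨L, hL⟩ : ∃ L : (Fin m → ℝ) →ₗ[ℝ] (Fin d → ℝ),
      L = Fintype.linearCombination ℝ
        (fun i => (fun j => ((b i : Fin d → ℤ) j : ℝ) : Fin d → ℝ)) := ⟨_, rfl⟩
  have hLinj : Function.Injective L := by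
    rw [hL]
    exact linearIndependent_iff_injective_fintypeLinearCombination.1 hliR
  obtain ⟨e, he⟩ : ∃ e : (Fin m → ℤ) →+ (Fin d → ℤ),
      ∀ c, e c = ∑ i, c i • (b i : Fin d → ℤ) := by
    refine ⟨(Fintype.linearCombination ℤ (fun i => (b i : Fin d → ℤ))).toAddMonoidHom, ?_⟩
    intro c
    rfl
  refine ⟨m, e, N.comp L, hm, ?_, ?_, ?_, ?_⟩
  · intro c c' h
    rw [he, he] at h
    have h1 : Function.Injective (Fintype.linearCombination ℤ (fun i => (b i : Fin d → ℤ))) :=
      linearIndependent_iff_injective_fintypeLinearCombination.1 hli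
    exact h1 h
  · intro x hx
    have h1 : N (L x) = 0 := hx
    have h2 := hN _ h1
    exact hLinj (h2.trans (map_zero L).symm)
  · intro c
    show N (L _) = _
    congr 1
    rw [hL, he]
    funext j
    rw [Fintype.linearCombination_apply]
    simp [Finset.sum_apply]
  · intro y hy
    have hyV : y ∈ V := by
      rw [hV, ← Submodule.mem_toAddSubgroup, Submodule.span_int_eq_addSubgroupClosure]
      exact hy
    refine ⟨b.repr ⟨y, hyV⟩, ?_⟩
    rw [he]
    have h1 := b.sum_repr ⟨y, hyV⟩
    have h2 := congrArg (V.subtype) h1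
    rw [map_sum] at h2
    simpa using h2

/-- the gauge of a symmetric convex body, as a norm -/
theorem exists_norm {d : ℕ} (B : Set (Fin d → ℝ)) (hB : SymmBody B) :
    ∃ N : Seminorm ℝ (Fin d → ℝ), (∀ x, N x = 0 → x = 0) ∧ ∀ x, N x ≤ 1 ↔ x ∈ B := by
  obtain ⟨hconv, hcomp, hint, hsymm⟩ := hB
  have h0 : (0 : Fin d → ℝ) ∈ interior B := by
    obtain ⟨x, hx⟩ := hint
    have hx' : -x ∈ interior B := by
      have h1 : B = -B := by
        ext y
        rw [Set.mem_neg]
        exact ⟨fun h => hsymm y h, fun h => by simpa using hsymm _ h⟩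
      have h2 : interior B = -interior B := by
        conv_lhs => rw [h1]
        exact (Homeomorph.neg (Fin d → ℝ)).preimage_interior B |>.symm
      rw [h2, Set.mem_neg, neg_neg]
      exact hx
    have h3 := hconv.interior hx hx' (a := 1 / 2) (b := 1 / 2) (by norm_num) (by norm_num)
      (by norm_num)
    rw [smul_neg, add_neg_cancel] at h3
    exact h3
  have hnhds : B ∈ nhds (0 : Fin d → ℝ) := mem_interior_iff_mem_nhds.1 h0
  have h0B : (0 : Fin d → ℝ) ∈ B := interior_subset h0
  have habs : Absorbent ℝ B := absorbent_nhds_zero hnhds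
  have hbal : Balanced ℝ B := by
    intro a ha x hx
    obtain ⟨y, hy, rfl⟩ := hx
    rw [Real.norm_eq_abs] at ha
    simp only
    rcases le_total 0 a with h | h
    · rw [abs_of_nonneg h] at ha
      exact hconv.smul_mem_of_zero_mem h0B hy ⟨h, ha⟩
    · rw [abs_of_nonpos h] at ha
      have := hconv.smul_mem_of_zero_mem h0B (hsymm y hy) (t := -a) ⟨by linarith, ha⟩
      rwa [smul_neg, neg_smul, neg_neg] at this
  refine ⟨gaugeSeminorm hbal hconv habs, ?_, ?_⟩
  · intro x hx
    have hb : Bornology.IsVonNBounded ℝ B := by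
      rw [NormedSpace.isVonNBounded_iff]
      exact hcomp.isBounded
    exact (gauge_eq_zero habs hb).1 hx
  · intro x
    have := gauge_le_one_iff_mem_closure hconv hnhds (x := x)
    rw [hcomp.isClosed.closure_eq] at this
    exact this

end H375.Rank
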